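import Mathlib
import Pool.Agent.P8H3.KI.Stm

set_option autoImplicit false

namespace Pool.Agent.P8H19.KI

open Filter Topology

open Pool.Agent.P8H3.KI (S_TD S_LIM)

theorem t_TD : S_TD := by
  intro k q _ hk hq
  have hunit : ∀ i j : Fin k, j < i → IsUnit (((i : ℕ) : ZMod q) - ((j : ℕ) : ZMod q)) := by
    intro i j hij
    have hij' : (j : ℕ) < i := hij
    rw [← Nat.cast_sub hij'.le, ZMod.isUnit_iff_coprime]
    apply Nat.Coprime.symm
    apply Nat.Coprime.coprime_dvd_right _ hq
    apply Nat.dvd_factorial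
    · omega
    · have := i.2
      omega
  refine ⟨fun t => match t with
    | Sum.inl ab => Finset.univ.image (fun i : Fin k => (i, ab.1 + ((i : ℕ) : ZMod q) * ab.2))
    | Sum.inr i => Finset.univ.image (fun c : ZMod q => (i, c)), ?_, ?_, ?_⟩
  · intro ab
    simp only
    rw [Finset.card_image_of_injective, Finset.card_univ, Fintype.card_fin]
    intro i j h
    exact (Prod.ext_iff.1 h).1
  · intro i
    simp only
    rw [Finset.card_image_of_injective, Finset.card_univ, ZMod.card]
    intro c d h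
    exact (Prod.ext_iff.1 h).2
  · have key : ∀ x y : Fin k × ZMod q, y.1 < x.1 → ∃ ab : ZMod q × ZMod q,
        x = (x.1, ab.1 + ((x.1 : ℕ) : ZMod q) * ab.2) ∧ y = (y.1, ab.1 + ((y.1 : ℕ) : ZMod q) * ab.2) := by
      intro x y hxy
      obtain ⟨u, hu⟩ := hunit x.1 y.1 hxy
      have h1 : (((x.1 : ℕ) : ZMod q) - ((y.1 : ℕ) : ZMod q)) * ((↑u⁻¹ : ZMod q) * (x.2 - y.2)) = x.2 - y.2 := by
        rw [← hu, ← mul_assoc, Units.mul_inv, one_mul]
      refine ⟨(x.2 - ((x.1 : ℕ) : ZMod q) * ((↑u⁻¹ : ZMod q) * (x.2 - y.2)), (↑u⁻¹ : ZMod q) * (x.2 - y.2)), ?_, ?_⟩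
      · apply Prod.ext
        · rfl
        · simp
      · apply Prod.ext
        · rfl
        · simp only
          linear_combination h1
    intro x y
    rcases lt_trichotomy x.1 y.1 with h | h | h
    · obtain ⟨ab, h1, h2⟩ := key y x h
      refine ⟨Sum.inl ab, ?_, ?_⟩
      · simp only [Finset.mem_image, Finset.mem_univ, true_and]
        exact ⟨x.1, h2.symm⟩
      · simp only [Finset.mem_image, Finset.mem_univ, true_and]
        exact ⟨y.1, h1.symm⟩
    · refine ⟨Sum.inr x.1, ?_, ?_⟩
      · simp only [Finset.mem_image, Finset.mem_univ, true_and]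
        exact ⟨x.2, rfl⟩
      · simp only [Finset.mem_image, Finset.mem_univ, true_and]
        exact ⟨y.2, by rw [h]⟩
    · obtain ⟨ab, h1, h2⟩ := key x y h
      refine ⟨Sum.inl ab, ?_, ?_⟩
      · simp only [Finset.mem_image, Finset.mem_univ, true_and]
        exact ⟨x.1, h1.symm⟩
      · simp only [Finset.mem_image, Finset.mem_univ, true_and]
        exact ⟨y.1, h2.symm⟩

theorem t_LIM : S_LIM := by
  intro f hf hmono hquad hsub
  obtain ⟨C, hC⟩ := hquad
  set S : Set ℝ := {x : ℝ | ∃ k : ℕ, 2 ≤ k ∧ x = f k / (k * (k - 1))} with hS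
  have hne : S.Nonempty := ⟨_, 2, le_rfl, rfl⟩
  have hpos : ∀ k : ℕ, 2 ≤ k → (0 : ℝ) < (k : ℝ) * (k - 1) := by
    intro k hk
    have : (2 : ℝ) ≤ k := by exact_mod_cast hk
    have h1 : (0 : ℝ) < k - 1 := by linarith
    positivity
  have hlb0 : (0 : ℝ) ∈ lowerBounds S := by
    rintro x ⟨k, hk, rfl⟩
    exact div_nonneg (hf k) (hpos k hk).le
  have hbb : BddBelow S := ⟨0, hlb0⟩
  set c := sInf S with hc
  have hglb : IsGLB S c := isGLB_csInf hne hbb
  have hc0 : 0 ≤ c := le_csInf hne hlb0
  have hlow : ∀ n : ℕ, 2 ≤ n → c * ((n : ℝ) * (n - 1)) ≤ f n := by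
    intro n hn
    have : c ≤ f n / (n * (n - 1)) := hglb.1 ⟨n, hn, rfl⟩
    rwa [le_div_iff₀ (hpos n hn)] at this
  set g : ℕ → ℝ := fun n => f n / (n : ℝ) ^ 2 with hg
  have hgle : ∀ n : ℕ, 1 ≤ n → g n ≤ C := by
    intro n hn
    have : (0 : ℝ) < (n : ℝ) ^ 2 := by
      have : (0 : ℝ) < n := by exact_mod_cast hn
      positivity
    rw [hg]; simp only
    rw [div_le_iff₀ this]
    exact hC n
  have hbd : IsBoundedUnder (· ≤ ·) atTop g := by
    refine ⟨C, ?_⟩
    rw [eventually_map]
    filter_upwards [eventually_ge_atTop 1] with n hn using hgle n hn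
  have hge : ∀ n : ℕ, 0 ≤ g n := fun n => div_nonneg (hf n) (by positivity)
  have hbd' : IsBoundedUnder (· ≥ ·) atTop g := by
    refine ⟨0, ?_⟩
    rw [eventually_map]
    exact Eventually.of_forall hge
  set L := limsup g atTop with hL
  have hLk : ∀ k : ℕ, 2 ≤ k → L ≤ f k / (k * (k - 1)) := by
    intro k hk
    have hk2 : (2 : ℝ) ≤ k := by exact_mod_cast hk
    have hk0 : (0 : ℝ) < k := by linarith
    set M := (k - 1).factorial with hM
    have hM0 : 0 < M := Nat.factorial_pos _
    have hkM : 0 < k * M := by positivity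
    set q : ℕ → ℕ := fun n => M * (n / (k * M) + 1) + 1 with hq
    have hqn : ∀ n, n ≤ k * q n := by
      intro n
      have h1 : n < k * M * (n / (k * M) + 1) := Nat.lt_mul_div_succ n hkM
      have h2 : k * q n = k * M * (n / (k * M) + 1) + k := by rw [hq]; ring
      omega
    have hqu : ∀ n : ℕ, (q n : ℝ) ≤ n / k + (M + 1) := by
      intro n
      have h1 : k * M * (n / (k * M)) ≤ n := Nat.mul_div_le n (k * M)
      have h2 : ((k * M * (n / (k * M)) : ℕ) : ℝ) ≤ n := by exact_mod_cast h1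
      have h3 : (q n : ℝ) = ((k * M * (n / (k * M)) : ℕ) : ℝ) / k + (M + 1) := by
        rw [hq]
        push_cast
        field_simp
        ring
      rw [h3]
      gcongr
    have hq1 : ∀ n, 1 ≤ q n := fun n => Nat.succ_le_succ (Nat.zero_le _)
    have hqc : ∀ n, (q n).Coprime (k - 1).factorial := by
      intro n
      rw [← hM, hq]
      simp only
      rw [Nat.coprime_mul_left_add_left]
      exact Nat.coprime_one_left _
    have hqt : Tendsto (fun n => q n) atTop atTop := by
      apply tendsto_atTop_mono (f := fun n => n / (k * M))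
      · intro n
        have : n / (k * M) ≤ M * (n / (k * M)) := Nat.le_mul_of_pos_left _ hM0
        rw [hq]; simp only
        rw [mul_add]
        omega
      · exact Nat.tendsto_div_const_atTop hkM.ne'
    have hratio : Tendsto (fun n : ℕ => (q n : ℝ) / n) atTop (𝓝 (1 / k)) := by
      have hup : Tendsto (fun n : ℕ => 1 / (k : ℝ) + (M + 1) / (n : ℝ)) atTop (𝓝 (1 / k + 0)) :=
        tendsto_const_nhds.add (tendsto_const_div_atTop_nhds_zero_nat _)
      rw [add_zero] at hup
      refine tendsto_of_tendsto_of_tendsto_of_le_of_le' tendsto_const_nhds hup ?_ ?_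
      · filter_upwards [eventually_ge_atTop 1] with n hn
        have hn0 : (0 : ℝ) < n := by exact_mod_cast hn
        rw [div_le_div_iff₀ hk0 hn0, one_mul]
        have := hqn n
        have h2 : (n : ℝ) ≤ k * q n := by exact_mod_cast this
        linarith
      · filter_upwards [eventually_ge_atTop 1] with n hn
        have hn0 : (0 : ℝ) < n := by exact_mod_cast hn
        rw [div_le_iff₀ hn0]
        have := hqu n
        have h3 : (1 / (k : ℝ) + (M + 1) / n) * n = n / k + (M + 1) := by
          field_simp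
        rw [h3]; exact this
    have hε : ∀ ε : ℝ, 0 < ε → L ≤ (1 / (k : ℝ)) ^ 2 * (f k + k * (L + ε)) := by
      intro ε hε
      have hev : ∀ᶠ m in atTop, g m < L + ε := eventually_lt_of_limsup_lt (by linarith) hbd
      have hev2 : ∀ᶠ n in atTop, g (q n) < L + ε := hqt.eventually hev
      have hlim : Tendsto (fun n : ℕ => ((q n : ℝ) / n) ^ 2 * (f k + k * (L + ε))) atTop
          (𝓝 ((1 / (k : ℝ)) ^ 2 * (f k + k * (L + ε)))) := (hratio.pow 2).mul_const _
      have hle : ∀ᶠ n in atTop, g n ≤ ((q n : ℝ) / n) ^ 2 * (f k + k * (L + ε)) := by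
        filter_upwards [hev2, eventually_ge_atTop 1] with n h1 hn
        have hn0 : (0 : ℝ) < n := by exact_mod_cast hn
        have hq0 : (0 : ℝ) < q n := by exact_mod_cast hq1 n
        have h2 : f n ≤ f (k * q n) := hmono (hqn n)
        have h3 := hsub k (q n) hk (hq1 n) (hqc n)
        have h4 : f (q n) ≤ (L + ε) * (q n : ℝ) ^ 2 := by
          have : g (q n) = f (q n) / (q n : ℝ) ^ 2 := rfl
          rw [this, div_lt_iff₀ (by positivity)] at h1
          exact h1.le
        have h5 : g n = f n / (n : ℝ) ^ 2 := rfl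
        rw [h5, div_pow, div_mul_eq_mul_div, div_le_div_iff_of_pos_right (by positivity)]
        have h6 : (k : ℝ) * f (q n) ≤ k * ((L + ε) * (q n : ℝ) ^ 2) := mul_le_mul_of_nonneg_left h4 hk0.le
        calc f n ≤ (q n : ℝ) ^ 2 * f k + k * f (q n) := h2.trans h3
          _ ≤ (q n : ℝ) ^ 2 * f k + k * ((L + ε) * (q n : ℝ) ^ 2) := by linarith
          _ = (q n : ℝ) ^ 2 * (f k + k * (L + ε)) := by ring
      calc L ≤ limsup (fun n : ℕ => ((q n : ℝ) / n) ^ 2 * (f k + k * (L + ε))) atTop :=
            limsup_le_limsup hle hbd'.isCoboundedUnder_le hlim.isBoundedUnder_le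
        _ = _ := hlim.limsup_eq
    have hfin : L ≤ (1 / (k : ℝ)) ^ 2 * (f k + k * L) := by
      apply le_of_forall_pos_le_add
      intro δ hδ
      have := hε (k * δ) (by positivity)
      have h2 : (1 / (k : ℝ)) ^ 2 * (f k + k * (L + k * δ)) = (1 / (k : ℝ)) ^ 2 * (f k + k * L) + δ := by
        field_simp
        ring
      rw [h2] at this
      exact this
    rw [le_div_iff₀ (hpos k hk)]
    have h3 : (k : ℝ) ^ 2 * L ≤ f k + k * L := by
      have := mul_le_mul_of_nonneg_left hfin (by positivity : (0 : ℝ) ≤ (k : ℝ) ^ 2)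
      have h4 : (k : ℝ) ^ 2 * ((1 / (k : ℝ)) ^ 2 * (f k + k * L)) = f k + k * L := by
        field_simp
      rwa [h4] at this
    linarith
  have hLc : L ≤ c := le_csInf hne (by rintro x ⟨k, hk, rfl⟩; exact hLk k hk)
  refine ⟨c, hc0, ?_, hglb⟩
  rw [tendsto_order]
  constructor
  · intro a ha
    have hlim : Tendsto (fun n : ℕ => c - c / (n : ℝ)) atTop (𝓝 (c - 0)) :=
      tendsto_const_nhds.sub (tendsto_const_div_atTop_nhds_zero_nat _)
    rw [sub_zero] at hlim
    filter_upwards [hlim.eventually (lt_mem_nhds ha), eventually_ge_atTop 2] with n h1 hn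
    refine lt_of_lt_of_le h1 ?_
    have hn0 : (0 : ℝ) < n := by
      have : 0 < n := by omega
      exact_mod_cast this
    rw [le_div_iff₀ (by positivity)]
    have h2 := hlow n hn
    have h3 : (c - c / (n : ℝ)) * (n : ℝ) ^ 2 = c * ((n : ℝ) * (n - 1)) := by
      field_simp
    rw [h3]; exact h2
  · intro a ha
    exact eventually_lt_of_limsup_lt (lt_of_le_of_lt hLc ha) hbd

end Pool.Agent.P8H19.KI
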