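import Mathlib
import Pool.Agent.P8H3.KI.Stm

set_option autoImplicit false

namespace Pool.Agent.P8H19.KI

open Finset

open Pool.Agent.P8H3.KI (S_POS plu)

theorem cnt (n : ℕ) (v : ℝ) (hv : 0 ≤ v) (c : ℕ → ℕ → Prop) [∀ x y, Decidable (c x y)] (φ : ℕ → ℕ)
    (h : ∀ x y, c x y → y = φ x) :
    ∑ x ∈ range n, ∑ y ∈ range n, (if c x y then v else 0) ≤ n * v := by
  have h1 : ∀ x, ∑ y ∈ range n, (if c x y then v else 0) ≤ v := by
    intro x
    calc ∑ y ∈ range n, (if c x y then v else 0) ≤ ∑ y ∈ range n, (if y = φ x then v else 0) := by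
          apply sum_le_sum
          intro y _
          by_cases hc : c x y
          · rw [if_pos hc, if_pos (h x y hc)]
          · rw [if_neg hc]
            split_ifs
            · exact hv
            · exact le_rfl
      _ ≤ v := by
          rw [sum_ite_eq']
          split_ifs
          · exact le_rfl
          · exact hv
  calc ∑ x ∈ range n, ∑ y ∈ range n, (if c x y then v else 0) ≤ ∑ x ∈ range n, v :=
        sum_le_sum fun x _ => h1 x
    _ = n * v := by rw [sum_const, card_range, nsmul_eq_mul]

/-- sum over four indices -/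
def S4 (n : ℕ) (f : ℕ → ℕ → ℕ → ℕ → ℝ) : ℝ :=
  ∑ i ∈ range n, ∑ k ∈ range n, ∑ l ∈ range n, ∑ j ∈ range n, f i k l j

theorem S4_23 (n : ℕ) (f : ℕ → ℕ → ℕ → ℕ → ℝ) : S4 n f = S4 n (fun i l k j => f i k l j) := by
  unfold S4
  exact sum_congr rfl fun i _ => sum_comm

theorem S4_34 (n : ℕ) (f : ℕ → ℕ → ℕ → ℕ → ℝ) : S4 n f = S4 n (fun i k j l => f i k l j) := by
  unfold S4
  exact sum_congr rfl fun i _ => sum_congr rfl fun k _ => sum_comm

theorem S4_12 (n : ℕ) (f : ℕ → ℕ → ℕ → ℕ → ℝ) : S4 n f = S4 n (fun k i l j => f i k l j) := by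
  unfold S4
  exact sum_comm

theorem S4_le (n : ℕ) (f g : ℕ → ℕ → ℕ → ℕ → ℝ) (h : ∀ i k l j, f i k l j ≤ g i k l j) :
    S4 n f ≤ S4 n g := by
  unfold S4
  exact sum_le_sum fun i _ => sum_le_sum fun k _ => sum_le_sum fun l _ => sum_le_sum fun j _ => h i k l j

/-- a pair occurs at most `n` times -/
theorem S4_cnt (n : ℕ) (g : ℕ → ℕ → ℝ) (hg : ∀ p q, 0 ≤ g p q) (c : ℕ → ℕ → ℕ → ℕ → Prop)
    [∀ i k l j, Decidable (c i k l j)] (φ : ℕ → ℕ → ℕ → ℕ)
    (h : ∀ p q x y, c p q x y → p < q ∧ y = φ p q x) :
    S4 n (fun p q x y => if c p q x y then g p q else 0) ≤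
      n * ∑ p ∈ range n, ∑ q ∈ range n, (if p < q then g p q else 0) := by
  unfold S4
  rw [mul_sum]
  apply sum_le_sum
  intro p _
  rw [mul_sum]
  apply sum_le_sum
  intro q _
  by_cases hpq : p < q
  · rw [if_pos hpq]
    exact cnt n (g p q) (hg p q) (fun x y => c p q x y) (φ p q) (fun x y hc => (h p q x y hc).2)
  · rw [if_neg hpq, mul_zero]
    apply le_of_eq
    apply sum_eq_zero
    intro x _
    apply sum_eq_zero
    intro y _
    exact if_neg (fun hc => hpq (h p q x y hc).1)

/-- the condition on the four indices `i k l j` -/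
def cd (i k l j : ℕ) : Prop := i < k ∧ k < l ∧ l < j ∧ i + j = k + l

instance (i k l j : ℕ) : Decidable (cd i k l j) := by unfold cd; infer_instance

/-- inequality between the weights -/
theorem wt (B : ℝ) (hB : 1 ≤ B) (s e : ℕ) (he : 1 ≤ e) (hes : e ≤ s) (x y : ℝ) :
    B ^ (s ^ 2) * (x * y) ≤
      (1 / (2 * B)) * (B ^ ((s - e) ^ 2) * x ^ 2 + B ^ ((s + e) ^ 2) * y ^ 2) := by
  have hB0 : 0 < B := by linarith
  have h1 : B ^ (s ^ 2 + e ^ 2) * B ^ (s ^ 2 + e ^ 2) = B ^ ((s - e) ^ 2) * B ^ ((s + e) ^ 2) := by
    rw [← pow_add, ← pow_add]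
    congr 1
    obtain ⟨t, rfl⟩ := Nat.exists_eq_add_of_le hes
    rw [Nat.add_sub_cancel_left]
    ring
  set u := B ^ ((s - e) ^ 2) with hu
  set v := B ^ ((s + e) ^ 2) with hv
  have hu0 : 0 < u := by positivity
  have hv0 : 0 < v := by positivity
  set w := B ^ (s ^ 2 + e ^ 2) with hw
  have hw0 : 0 < w := by positivity
  have h2 : B ^ (s ^ 2) * B ≤ w := by
    rw [hw, ← pow_succ]
    apply pow_le_pow_right₀ hB
    have : 1 ≤ e ^ 2 := Nat.one_le_pow _ _ he
    omega
  -- `2 w |x y| ≤ u x ^ 2 + v y ^ 2`
  have h3 : 2 * w * |x * y| ≤ u * x ^ 2 + v * y ^ 2 := by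
    apply abs_le_of_sq_le_sq' _ (by positivity) |>.2
    have h4 : (2 * w * |x * y|) ^ 2 = 4 * (w * w) * (x ^ 2 * y ^ 2) := by
      rw [mul_pow, sq_abs]; ring
    rw [h4, h1]
    nlinarith [sq_nonneg (u * x ^ 2 - v * y ^ 2)]
  have h5 : B ^ (s ^ 2) * (x * y) ≤ B ^ (s ^ 2) * |x * y| :=
    mul_le_mul_of_nonneg_left (le_abs_self _) (by positivity)
  have h6 : B ^ (s ^ 2) * B * |x * y| ≤ w * |x * y| := mul_le_mul_of_nonneg_right h2 (abs_nonneg _)
  have h7 : B ^ (s ^ 2) * |x * y| * (2 * B) ≤ u * x ^ 2 + v * y ^ 2 := by linarith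
  refine h5.trans ?_
  rw [one_div, ← div_eq_inv_mul, le_div_iff₀ (by positivity)]
  exact h7

theorem t_POS : S_POS := by
  intro n a hs hne
  set B : ℝ := ((4 * n + 1 : ℕ) : ℝ) with hB
  have hB1 : 1 ≤ B := by
    rw [hB]
    have : 1 ≤ 4 * n + 1 := by omega
    exact_mod_cast this
  have hB0 : 0 < B := by linarith
  set g : ℕ → ℕ → ℝ := fun p q => B ^ ((p + q) ^ 2) * a p q ^ 2 with hg
  have hg0 : ∀ p q, 0 ≤ g p q := fun p q => by rw [hg]; positivity
  set T : ℝ := ∑ p ∈ range n, ∑ q ∈ range n, (if p < q then g p q else 0) with hT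
  -- positivity of `T`
  have hT0 : 0 < T := by
    obtain ⟨i, j, hij, hj, hne⟩ := hne
    rw [hT]
    apply sum_pos' (fun p _ => sum_nonneg fun q _ => by split_ifs; exacts [hg0 p q, le_rfl])
    refine ⟨i, mem_range.2 (hij.trans hj), ?_⟩
    apply sum_pos' (fun q _ => by split_ifs; exacts [hg0 i q, le_rfl])
    refine ⟨j, mem_range.2 hj, ?_⟩
    rw [if_pos hij, hg]
    have : 0 < a i j ^ 2 := by positivity
    positivity
  -- the square
  set X : ℝ := S4 n (fun i k l j => if cd i k l j then B ^ ((i + j) ^ 2) * (a i j * a k l) else 0) with hX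
  have hTX : T + 2 * X = 0 := by
    -- order `i j k l`
    set F : ℕ → ℕ → ℕ → ℕ → ℝ := fun i j k l =>
      if i < j ∧ k < l ∧ i + j = k + l then B ^ ((i + j) ^ 2) * (a i j * a k l) else 0 with hF
    have hF0 : S4 n F = 0 := by
      unfold S4
      apply sum_eq_zero
      intro i _
      apply sum_eq_zero
      intro j _
      by_cases hij : i < j
      · have h1 : ∑ k ∈ range n, ∑ l ∈ range n, F i j k l =
            B ^ ((i + j) ^ 2) * a i j * ∑ k ∈ range n, ∑ l ∈ range n,
              (if k < l ∧ k + l = i + j then a k l else 0) := by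
          rw [mul_sum]
          apply sum_congr rfl
          intro k _
          rw [mul_sum]
          apply sum_congr rfl
          intro l _
          rw [hF]
          simp only
          by_cases hc : k < l ∧ k + l = i + j
          · rw [if_pos hc, if_pos ⟨hij, hc.1, hc.2.symm⟩]; ring
          · rw [if_neg hc, if_neg (fun h => hc ⟨h.2.1, h.2.2.symm⟩), mul_zero]
        rw [h1, hs (i + j), mul_zero]
      · apply sum_eq_zero
        intro k _
        apply sum_eq_zero
        intro l _
        rw [hF]
        simp only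
        rw [if_neg (fun h => hij h.1)]
    set F1 : ℕ → ℕ → ℕ → ℕ → ℝ := fun i j k l => if k = i then (if l = j then (if i < j then g i j else 0) else 0) else 0 with hF1
    set F2 : ℕ → ℕ → ℕ → ℕ → ℝ := fun i j k l => if cd i k l j then B ^ ((i + j) ^ 2) * (a i j * a k l) else 0 with hF2
    set F3 : ℕ → ℕ → ℕ → ℕ → ℝ := fun i j k l => if cd k i j l then B ^ ((k + l) ^ 2) * (a k l * a i j) else 0 with hF3
    have hsplit : ∀ i j k l, F i j k l = F1 i j k l + F2 i j k l + F3 i j k l := by
      intro i j k l
      rw [hF, hF1, hF2, hF3]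
      simp only
      by_cases hc : i < j ∧ k < l ∧ i + j = k + l
      · rw [if_pos hc]
        obtain ⟨h1, h2, h3⟩ := hc
        rcases lt_trichotomy i k with h | h | h
        · rw [if_neg (by omega : ¬ k = i), if_pos (show cd i k l j from ⟨h, h2, by omega, h3⟩),
            if_neg (show ¬ cd k i j l from fun hc => by have := hc.1; omega)]
          ring
        · subst h
          have : l = j := by omega
          subst this
          rw [if_pos rfl, if_pos rfl, if_pos h1, if_neg (show ¬ cd i i l l from fun hc => by have := hc.1; omega)]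
          rw [hg]; ring
        · rw [if_neg (by omega : ¬ k = i), if_neg (show ¬ cd i k l j from fun hc => by have := hc.1; omega),
            if_pos (show cd k i j l from ⟨h, h1, by omega, h3.symm⟩), h3]
          ring
      · rw [if_neg hc, if_neg (show ¬ cd i k l j from fun h => hc ⟨by have := h.1; have := h.2.1; have := h.2.2.1; omega, h.2.1, h.2.2.2⟩),
          if_neg (show ¬ cd k i j l from fun h => hc ⟨h.2.1, by have := h.1; have := h.2.1; have := h.2.2.1; omega, h.2.2.2.symm⟩)]
        by_cases h1 : k = i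
        · rw [if_pos h1]
          by_cases h2 : l = j
          · rw [if_pos h2]
            have : ¬ i < j := by
              intro h
              apply hc
              subst h1 h2
              exact ⟨h, h, rfl⟩
            rw [if_neg this]; ring
          · rw [if_neg h2]; ring
        · rw [if_neg h1]; ring
    have hsum : S4 n F = S4 n F1 + S4 n F2 + S4 n F3 := by
      have : F = fun i j k l => F1 i j k l + F2 i j k l + F3 i j k l := by
        funext i j k l; exact hsplit i j k l
      rw [this]
      unfold S4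
      simp only [sum_add_distrib]
    have e1 : S4 n F1 = T := by
      unfold S4
      rw [hT]
      apply sum_congr rfl
      intro i hi
      apply sum_congr rfl
      intro j hj
      have : ∀ k ∈ range n, ∑ l ∈ range n, F1 i j k l = if k = i then (if i < j then g i j else 0) else 0 := by
        intro k _
        rw [hF1]
        simp only
        by_cases hk : k = i
        · simp only [if_pos hk]
          rw [sum_ite_eq', if_pos hj]
        · simp only [if_neg hk, sum_const_zero]
      rw [sum_congr rfl this, sum_ite_eq', if_pos hi]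
    have e2 : S4 n F2 = X := by
      -- F2 i j k l, sum over i j k l ; X sums over i k l j
      rw [hX, S4_23 n F2, S4_34 n (fun i l k j => F2 i k l j)]
    have e3 : S4 n F3 = X := by
      rw [← e2]
      -- exchange the two pairs
      rw [S4_23 n F3, S4_12 n, S4_34 n, S4_23 n]
    rw [hsum, e1, e2, e3] at hF0
    linarith
  -- the other terms
  have hS1 : S4 n (fun i k l j => if cd i k l j then g i k else 0) ≤ n * T :=
    S4_cnt n g hg0 (fun i k l j => cd i k l j) (fun i k l => k + l - i)
      (fun i k l j h => ⟨h.1, by have := h.2.2.2; omega⟩)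
  have hS2 : S4 n (fun i k l j => if cd i k l j then g l j else 0) ≤ n * T := by
    have e : S4 n (fun i k l j => if cd i k l j then g l j else 0) =
        S4 n (fun l j i k => if cd i k l j then g l j else 0) := by
      rw [S4_23 n, S4_12 n, S4_34 n, S4_23 n]
    rw [e]
    exact S4_cnt n g hg0 (fun l j i k => cd i k l j) (fun l j i => i + j - l)
      (fun l j i k h => ⟨h.2.2.1, by have := h.2.2.2; omega⟩)
  have hS3 : S4 n (fun i k l j => if cd i k l j then g i l else 0) ≤ n * T := by
    have e : S4 n (fun i k l j => if cd i k l j then g i l else 0) =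
        S4 n (fun i l k j => if cd i k l j then g i l else 0) := by
      rw [S4_23 n]
    rw [e]
    exact S4_cnt n g hg0 (fun i l k j => cd i k l j) (fun i l k => k + l - i)
      (fun i l k j h => ⟨h.1.trans h.2.1, by have := h.2.2.2; have := h.1; omega⟩)
  have hS4 : S4 n (fun i k l j => if cd i k l j then g k j else 0) ≤ n * T := by
    have e : S4 n (fun i k l j => if cd i k l j then g k j else 0) =
        S4 n (fun k j i l => if cd i k l j then g k j else 0) := by
      rw [S4_12 n, S4_34 n, S4_23 n]
    rw [e]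
    exact S4_cnt n g hg0 (fun k j i l => cd i k l j) (fun k j i => i + j - k)
      (fun k j i l h => ⟨h.2.1.trans h.2.2.1, by have := h.2.2.2; omega⟩)
  -- termwise bound
  have hterm : S4 n (fun i k l j => if cd i k l j then B ^ ((i + j) ^ 2) * plu a i k l j else 0) ≤
      X + (1 / (2 * B)) * (S4 n (fun i k l j => if cd i k l j then g i k else 0) +
        S4 n (fun i k l j => if cd i k l j then g l j else 0) +
        S4 n (fun i k l j => if cd i k l j then g i l else 0) +
        S4 n (fun i k l j => if cd i k l j then g k j else 0)) := by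
    have hr : X + (1 / (2 * B)) * (S4 n (fun i k l j => if cd i k l j then g i k else 0) +
        S4 n (fun i k l j => if cd i k l j then g l j else 0) +
        S4 n (fun i k l j => if cd i k l j then g i l else 0) +
        S4 n (fun i k l j => if cd i k l j then g k j else 0)) =
        S4 n (fun i k l j => (if cd i k l j then B ^ ((i + j) ^ 2) * (a i j * a k l) else 0) +
          (1 / (2 * B)) * ((if cd i k l j then g i k else 0) + (if cd i k l j then g l j else 0) +
            (if cd i k l j then g i l else 0) + (if cd i k l j then g k j else 0))) := by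
      rw [hX]
      unfold S4
      simp only [sum_add_distrib, mul_sum, mul_add]
    rw [hr]
    apply S4_le
    intro i k l j
    by_cases hc : cd i k l j
    · simp only [if_pos hc]
      obtain ⟨h1, h2, h3, h4⟩ := hc
      have w1 := wt B hB1 (i + j) (l - i) (by omega) (by omega) (a i k) (a l j)
      have w2 := wt B hB1 (i + j) (k - i) (by omega) (by omega) (a i l) (-a k j)
      have x1 : i + j - (l - i) = i + k := by omega
      have x2 : i + j + (l - i) = l + j := by omega
      have x3 : i + j - (k - i) = i + l := by omega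
      have x4 : i + j + (k - i) = k + j := by omega
      rw [x1, x2] at w1
      rw [x3, x4] at w2
      rw [neg_sq] at w2
      rw [hg]
      simp only
      unfold plu
      have e5 : B ^ ((i + j) ^ 2) * (a i k * a l j - a i l * a k j + a i j * a k l) =
          B ^ ((i + j) ^ 2) * (a i j * a k l) + (B ^ ((i + j) ^ 2) * (a i k * a l j) +
            B ^ ((i + j) ^ 2) * (a i l * (-a k j))) := by ring
      rw [e5]
      linarith
    · simp only [if_neg hc]
      simp
  have hgoal : (∑ i ∈ Finset.range n, ∑ k ∈ Finset.range n, ∑ l ∈ Finset.range n, ∑ j ∈ Finset.range n,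
    (if i < k ∧ k < l ∧ l < j ∧ i + j = k + l then
      B ^ ((i + j) ^ 2) * plu a i k l j else 0)) =
      S4 n (fun i k l j => if cd i k l j then B ^ ((i + j) ^ 2) * plu a i k l j else 0) := rfl
  rw [hgoal, neg_pos]
  refine lt_of_le_of_lt hterm ?_
  have hX' : X = - (T / 2) := by linarith
  have hb : (1 / (2 * B)) * (S4 n (fun i k l j => if cd i k l j then g i k else 0) +
        S4 n (fun i k l j => if cd i k l j then g l j else 0) +
        S4 n (fun i k l j => if cd i k l j then g i l else 0) +
        S4 n (fun i k l j => if cd i k l j then g k j else 0)) ≤ (1 / (2 * B)) * (4 * (n * T)) := by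
    apply mul_le_mul_of_nonneg_left _ (by positivity)
    linarith
  have hb2 : (1 / (2 * B)) * (4 * (n * T)) < T / 2 := by
    rw [one_div, ← div_eq_inv_mul, div_lt_iff₀ (by positivity)]
    have : B = 4 * n + 1 := by rw [hB]; push_cast; ring
    rw [this]
    nlinarith
  linarith

end Pool.Agent.P8H19.KI
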